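import Mathlib

/-!
# Rings with involution, symmetric nil ideals and similitudes
-/

namespace Pool.Agent.Y152.Alg

open scoped TensorProduct

universe u v

section red

/-- A linear combination of commuting involutions which is nilpotent vanishes. -/
lemma involutions {K : Type v} [Field K] (h2 : (2 : K) ≠ 0) {ι : Type*} [DecidableEq ι]
    (s : Finset ι) : ∀ {B : Type u} [CommRing B] [Algebra K B] (g : ι → B) (c : ι → K) (c0 : K),
    (∀ i ∈ s, g i * g i = 1) →
    IsNilpotent (algebraMap K B c0 + ∑ i ∈ s, c i • g i) →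
    algebraMap K B c0 + ∑ i ∈ s, c i • g i = 0 := by
  induction s using Finset.induction_on with
  | empty =>
    intro B _ _ g c c0 _ hz
    rw [Finset.sum_empty, add_zero] at hz ⊢
    obtain ⟨n, hn⟩ := hz
    rw [← map_pow] at hn
    by_cases h : c0 = 0
    · rw [h, map_zero]
    · have h1 : (1 : B) = 0 := by
        have h3 := congrArg (fun t => algebraMap K B (c0 ^ n)⁻¹ * t) hn
        simp only [← map_mul, mul_zero] at h3
        rw [inv_mul_cancel₀ (pow_ne_zero n h), map_one] at h3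
        exact h3
      rw [← mul_one (algebraMap K B c0), h1, mul_zero]
  | insert a s ha ih =>
    intro B _ _ g c c0 hg hz
    set z := algebraMap K B c0 + ∑ i ∈ insert a s, c i • g i with hzdef
    have key : ∀ ε : K, ε * ε = 1 → z * (g a + algebraMap K B ε) = 0 := by
      intro ε hε
      set I : Ideal B := Ideal.span {g a - algebraMap K B ε} with hI
      let π : B →ₐ[K] B ⧸ I := Ideal.Quotient.mkₐ K I
      have h3 : π (g a) = algebraMap K (B ⧸ I) ε := by
        have h4 : π (g a - algebraMap K B ε) = 0 := by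
          change Ideal.Quotient.mk I _ = 0
          rw [Ideal.Quotient.eq_zero_iff_mem, hI]
          exact Ideal.mem_span_singleton_self _
        rw [map_sub, AlgHom.commutes, sub_eq_zero] at h4
        exact h4
      have h4 : π z = algebraMap K (B ⧸ I) (c0 + c a * ε) + ∑ i ∈ s, c i • π (g i) := by
        rw [hzdef, Finset.sum_insert ha, map_add, map_add, map_sum, AlgHom.commutes, map_smul, h3,
          Algebra.smul_def, ← map_mul, map_add, add_assoc]
        simp only [map_smul]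
      have h5 : π z = 0 := by
        rw [h4]
        refine ih (fun i => π (g i)) c _ ?_ ?_
        · intro i hi
          rw [← map_mul, hg i (Finset.mem_insert_of_mem hi), map_one]
        · rw [← h4]
          exact hz.map π
      have h6 : z ∈ I := Ideal.Quotient.eq_zero_iff_mem.1 h5
      rw [hI, Ideal.mem_span_singleton] at h6
      obtain ⟨w, hw⟩ := h6
      rw [hw]
      have h7 : (g a - algebraMap K B ε) * w * (g a + algebraMap K B ε) =
          (g a * g a - algebraMap K B (ε * ε)) * w := by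
        rw [map_mul]; ring
      rw [h7, hg a (Finset.mem_insert_self _ _), hε, map_one, sub_self, zero_mul]
    have k1 := key 1 (by ring)
    have k2 := key (-1) (by ring)
    rw [map_one] at k1
    rw [map_neg, map_one] at k2
    have k3 : algebraMap K B 2 * z = 0 := by
      rw [map_ofNat]
      linear_combination k1 - k2
    have k4 := congrArg (fun t => algebraMap K B (2 : K)⁻¹ * t) k3
    simp only [← mul_assoc, ← map_mul, mul_zero] at k4
    rwa [inv_mul_cancel₀ h2, map_one, one_mul] at k4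

/-- A linear combination of commuting square roots of nonzero rational numbers which is nilpotent
vanishes. -/
lemma roots {ι : Type*} [DecidableEq ι] (s : Finset ι) {B : Type u} [CommRing B] [Algebra ℚ B]
    (g : ι → B) (c : ι → ℚ) (N : ι → ℚ) (hN : ∀ i ∈ s, N i ≠ 0)
    (hg : ∀ i ∈ s, g i * g i = algebraMap ℚ B (N i))
    (hz : IsNilpotent (∑ i ∈ s, c i • g i)) : ∑ i ∈ s, c i • g i = 0 := by
  have hr : ∀ i, ∃ r : ℂ, r * r = (N i : ℂ) := fun i => by
    obtain ⟨r, hr⟩ := IsAlgClosed.exists_pow_nat_eq (N i : ℂ) (n := 2) (by norm_num)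
    exact ⟨r, by rw [← hr]; ring⟩
  choose r hr using hr
  let φ : B →ₐ[ℚ] ℂ ⊗[ℚ] B := Algebra.TensorProduct.includeRight
  have hφ : Function.Injective φ :=
    Algebra.TensorProduct.includeRight_injective (algebraMap ℚ ℂ).injective
  apply hφ
  rw [map_zero, map_sum]
  have hr0 : ∀ i ∈ s, r i ≠ 0 := by
    intro i hi h0
    have := hr i
    rw [h0, zero_mul] at this
    exact hN i hi (by exact_mod_cast this.symm)
  have h1 : ∀ i ∈ s, φ (c i • g i) = ((c i : ℂ) * r i) • ((r i)⁻¹ • φ (g i)) := by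
    intro i hi
    rw [smul_smul, mul_assoc, mul_inv_cancel₀ (hr0 i hi), mul_one, map_smul]
    rw [Algebra.smul_def, Algebra.smul_def]
    congr 1
  rw [Finset.sum_congr rfl h1]
  have h2 := involutions (K := ℂ) two_ne_zero s (B := ℂ ⊗[ℚ] B) (fun i => (r i)⁻¹ • φ (g i))
    (fun i => (c i : ℂ) * r i) 0 ?_ ?_
  · rwa [map_zero, zero_add] at h2
  · intro i hi
    rw [smul_mul_smul_comm, ← map_mul, hg i hi, AlgHom.commutes,
      IsScalarTower.algebraMap_apply ℚ ℂ (ℂ ⊗[ℚ] B), Algebra.smul_def, ← map_mul,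
      ← mul_inv, hr]
    have : (N i : ℂ)⁻¹ * (algebraMap ℚ ℂ) (N i) = 1 := by
      have h3 : (algebraMap ℚ ℂ) (N i) = (N i : ℂ) := rfl
      rw [h3]
      exact inv_mul_cancel₀ (by exact_mod_cast hN i hi)
    rw [this, map_one]
  · rw [map_zero, zero_add, ← Finset.sum_congr rfl h1, ← map_sum]
    exact hz.map φ

/-- The version for commuting elements of a ring which need not be commutative. -/
lemma roots' {P : Type u} [Ring P] [Algebra ℚ P] {𝒢 : Set P}
    (hcomm : ∀ a ∈ 𝒢, ∀ b ∈ 𝒢, a * b = b * a)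
    (hsq : ∀ a ∈ 𝒢, ∃ N : ℚ, N ≠ 0 ∧ a * a = algebraMap ℚ P N) {z : P}
    (hz : z ∈ Submodule.span ℚ 𝒢) (hn : IsNilpotent z) : z = 0 := by
  classical
  obtain ⟨c, hc1, hc2⟩ := (Submodule.mem_span_set' (s := 𝒢)).1 hz |>.imp fun n h => h
  obtain ⟨g, hg⟩ := hc2
  -- the commutative subalgebra generated by the elements
  let _ : CommRing (Algebra.adjoin ℚ 𝒢) := { (inferInstance : Ring (Algebra.adjoin ℚ 𝒢)) with
    mul_comm := (Algebra.isMulCommutative_adjoin ℚ (s := 𝒢) hcomm).is_comm.comm }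
  let g' : Fin c → Algebra.adjoin ℚ 𝒢 := fun i => ⟨g i, Algebra.subset_adjoin (g i).2⟩
  have hN : ∀ i, ∃ N : ℚ, N ≠ 0 ∧ (g i : P) * g i = algebraMap ℚ P N := fun i => hsq _ (g i).2
  choose N hN1 hN2 using hN
  have h1 : ((∑ i, hc1 i • g' i : Algebra.adjoin ℚ 𝒢) : P) = z := by
    rw [← hg, AddSubmonoidClass.coe_finsetSum]
    rfl
  have h2 := roots (B := Algebra.adjoin ℚ 𝒢) Finset.univ g' hc1 N (fun i _ => hN1 i)
    (fun i _ => Subtype.ext (hN2 i)) (by
      obtain ⟨n, hn⟩ := hn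
      refine ⟨n, Subtype.ext ?_⟩
      have h3 : (((∑ i, hc1 i • g' i : Algebra.adjoin ℚ 𝒢) ^ n : Algebra.adjoin ℚ 𝒢) : P) =
          z ^ n := by
        rw [← h1]; rfl
      exact h3.trans hn)
  rw [← h1, h2]
  rfl

end red

section setup

variable {P : Type u} [Ring P] [Algebra ℚ P]

/-- A subalgebra `Q` of the ring `P` with involution `s`, and an ideal `J` of `Q` which is nil and
consists of symmetric elements, such that `Q / J` is a field. -/
structure Setup (s : P →ₗ[ℚ] P) (Q J : Submodule ℚ P) : Prop where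
  s_mul : ∀ x y, s (x * y) = s y * s x
  s_s : ∀ x, s (s x) = x
  one_mem : 1 ∈ Q
  mul_mem : ∀ {x y}, x ∈ Q → y ∈ Q → x * y ∈ Q
  s_mem : ∀ {x}, x ∈ Q → s x ∈ Q
  le : J ≤ Q
  left : ∀ {x j}, x ∈ Q → j ∈ J → x * j ∈ J
  right : ∀ {j x}, j ∈ J → x ∈ Q → j * x ∈ J
  sym : ∀ {j}, j ∈ J → s j = j
  nil : ∀ {j}, j ∈ J → IsNilpotent j
  comm : ∀ {x y}, x ∈ Q → y ∈ Q → x * y - y * x ∈ J
  inv : ∀ {x}, x ∈ Q → x ∈ J ∨ ∃ y ∈ Q, x * y - 1 ∈ J

/-- The element `γ` is a similitude with multiplier `N`. -/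
structure Sim (s : P →ₗ[ℚ] P) (Q : Submodule ℚ P) (γ : P) (N : ℚ) : Prop where
  mem : γ ∈ Q
  ne : N ≠ 0
  eq : γ * s γ = algebraMap ℚ P N

variable {s : P →ₗ[ℚ] P} {Q J : Submodule ℚ P} (h : Setup s Q J)
include h

lemma Setup.trivial_of_mem {c : ℚ} (hc : c ≠ 0) (hJ : algebraMap ℚ P c ∈ J) : (1 : P) = 0 := by
  obtain ⟨n, hn⟩ := h.nil hJ
  rw [← map_pow] at hn
  have h1 := congrArg (fun t => algebraMap ℚ P (c ^ n)⁻¹ * t) hn
  simp only [← map_mul, mul_zero] at h1
  rwa [inv_mul_cancel₀ (pow_ne_zero n hc), map_one] at h1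

lemma Setup.eq_zero_of_mul {z : P} (hz : z ∈ J) {c : ℚ} (hc : c ≠ 0)
    (h1 : z * (algebraMap ℚ P c + z) = 0) : z = 0 := by
  have h2 : IsUnit (algebraMap ℚ P c + z) := by
    refine IsNilpotent.isUnit_add_left_of_commute (h.nil hz)
      ((isUnit_iff_ne_zero.2 hc).map (algebraMap ℚ P)) ?_
    exact (Algebra.commutes c z).symm
  exact (h2.mul_left_eq_zero).1 h1

lemma Setup.two_sided {γ : P} {N : ℚ} (hγ : Sim s Q γ N) : s γ * γ = algebraMap ℚ P N := by
  set y := s γ * γ - algebraMap ℚ P N with hy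
  have h1 : y ∈ J := by
    have := h.comm (h.s_mem hγ.mem) hγ.mem
    rwa [hγ.eq] at this
  have h2 : y * (algebraMap ℚ P N + y) = 0 := by
    have h3 : γ * y = 0 := by
      rw [hy, mul_sub, ← mul_assoc, hγ.eq, Algebra.commutes, sub_self]
    have h4 : (algebraMap ℚ P N + y) = s γ * γ := by rw [hy]; abel
    have h5 : y * (algebraMap ℚ P N + y) = (algebraMap ℚ P N + y) * y := by
      rw [mul_add, add_mul, Algebra.commutes]
    rw [h5, h4, mul_assoc, h3, mul_zero]
  exact sub_eq_zero.1 (h.eq_zero_of_mul h1 hγ.ne h2)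

lemma Setup.sim_s {γ : P} {N : ℚ} (hγ : Sim s Q γ N) : Sim s Q (s γ) N where
  mem := h.s_mem hγ.mem
  ne := hγ.ne
  eq := by rw [h.s_s, h.two_sided hγ]

lemma Setup.sim_mul {γ δ : P} {N M : ℚ} (hγ : Sim s Q γ N) (hδ : Sim s Q δ M) :
    Sim s Q (γ * δ) (N * M) where
  mem := h.mul_mem hγ.mem hδ.mem
  ne := mul_ne_zero hγ.ne hδ.ne
  eq := by
    rw [h.s_mul, mul_assoc, ← mul_assoc δ, hδ.eq, Algebra.commutes, ← mul_assoc, hγ.eq, map_mul]

/-- If `E` is a multiple of an idempotent and `γ (s γ)` is a multiple of `E`, then either `E = 0` or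
`γ` is a similitude. -/
lemma Setup.sim_or_zero {E γ : P} {N M : ℚ} (hE : E ∈ Q) (hM : M ≠ 0) (hN : N ≠ 0)
    (h1 : E * E = algebraMap ℚ P M * E) (hγ : γ ∈ Q) (h2 : γ * s γ = algebraMap ℚ P N * E) :
    E = 0 ∨ Sim s Q γ (N * M) := by
  rcases h.inv hE with h3 | ⟨y, hy, h3⟩
  · left
    refine h.eq_zero_of_mul h3 (neg_ne_zero.2 hM) ?_
    rw [mul_add, h1, ← Algebra.commutes, map_neg, neg_mul]
    exact neg_add_cancel _
  · right
    have h4 : IsUnit (E * y) := by
      have h5 : E * y = 1 + (E * y - 1) := by abel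
      rw [h5]
      exact (h.nil h3).isUnit_one_add
    have h5 : (E - algebraMap ℚ _ M) * (E * y) = 0 := by
      rw [← mul_assoc, sub_mul, h1, sub_self, zero_mul]
    have h6 : E = algebraMap ℚ _ M := sub_eq_zero.1 ((h4.mul_left_eq_zero).1 h5)
    exact ⟨hγ, mul_ne_zero hN hM, by rw [h2, h6, map_mul]⟩

omit h in
lemma eq_zero_of_eq_neg {M : Type*} [AddCommGroup M] [Module ℚ M] {x : M} (h : x = -x) :
    x = 0 := by
  have h1 : (2 : ℚ) • x = 0 := by
    rw [two_smul]
    nth_rw 1 [h]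
    exact neg_add_cancel x
  exact (smul_eq_zero.1 h1).resolve_left (by norm_num)

/-- An antisymmetric element of `J` is zero. -/
lemma Setup.anti_zero {u : P} (hu : u ∈ J) (h1 : s u = -u) : u = 0 := by
  have h2 := h.sym hu
  rw [h1] at h2
  exact eq_zero_of_eq_neg h2.symm

/-- Antisymmetric elements commute. -/
lemma Setup.anti_comm {u w : P} (hu : u ∈ Q) (hw : w ∈ Q) (h1 : s u = -u) (h2 : s w = -w) :
    w * u = u * w := by
  refine sub_eq_zero.1 (h.anti_zero (h.comm hw hu) ?_)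
  rw [map_sub, h.s_mul, h.s_mul, h1, h2]
  simp only [neg_mul_neg]
  abel

/-- Symmetric elements commute. -/
lemma Setup.sym_comm {u w : P} (hu : u ∈ Q) (hw : w ∈ Q) (h1 : s u = u) (h2 : s w = w) :
    w * u = u * w := by
  refine sub_eq_zero.1 (h.anti_zero (h.comm hw hu) ?_)
  rw [map_sub, h.s_mul, h.s_mul, h1, h2]
  abel

/-- Similitudes commute with antisymmetric elements. -/
lemma Setup.sim_anti {u γ : P} {N : ℚ} (hu : u ∈ Q) (h1 : s u = -u) (hγ : Sim s Q γ N) :
    γ * u = u * γ := by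
  have h2 : γ * u * s γ - u * (γ * s γ) = 0 := by
    refine h.anti_zero ?_ ?_
    · rw [← mul_assoc, ← sub_mul]
      exact h.right (h.comm hγ.mem hu) (h.s_mem hγ.mem)
    · rw [map_sub, h.s_mul, h.s_mul, h.s_mul, h.s_mul, h.s_s, h1, hγ.eq, neg_mul, mul_neg,
        mul_neg, Algebra.commutes, mul_assoc]
      abel
  have h3 : γ * u * s γ * γ = u * (γ * s γ) * γ := by rw [sub_eq_zero.1 h2]
  rw [mul_assoc, h.two_sided hγ, hγ.eq, ← Algebra.commutes, ← Algebra.commutes N u,
    mul_assoc] at h3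
  have h4 : algebraMap ℚ P N⁻¹ * (algebraMap ℚ P N * (γ * u)) =
    algebraMap ℚ P N⁻¹ * (algebraMap ℚ P N * (u * γ)) := by rw [h3]
  have h5 : ∀ x : P, algebraMap ℚ P N⁻¹ * (algebraMap ℚ P N * x) = x := by
    intro x
    rw [← mul_assoc, ← map_mul, inv_mul_cancel₀ hγ.ne, map_one, one_mul]
  rwa [h5, h5] at h4

/-- If there is an antisymmetric element which is invertible modulo `J`, then the square of `J` is
zero. -/
lemma Setup.mul_eq_zero {u y j j' : P} (hu : u ∈ Q) (h1 : s u = -u) (hy' : u * y - 1 ∈ J)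
    (hj : j ∈ J) (hj' : j' ∈ J) : j * j' = 0 := by
  have h0 : ∀ {z : P}, z ∈ J → u * z = -(z * u) := by
    intro z hz
    have h4 := h.sym (h.left hu hz)
    rw [h.s_mul, h.sym hz, h1, mul_neg] at h4
    exact h4.symm
  have h2 : u * (j * j') = -(j * j' * u) := h0 (h.left (h.le hj) hj')
  have h3 : u * (j * j') = j * j' * u := by
    rw [← mul_assoc, h0 hj, neg_mul, mul_assoc, h0 hj', mul_neg, neg_neg, mul_assoc]
  have h4 : j * j' * u = 0 := by
    rw [h3] at h2
    exact eq_zero_of_eq_neg h2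
  have h5 : IsUnit (u * y) := by
    have h5 : u * y = 1 + (u * y - 1) := by abel
    rw [h5]
    exact (h.nil hy').isUnit_one_add
  have h6 : j * j' * (u * y) = 0 := by rw [← mul_assoc, h4, zero_mul]
  exact (h5.mul_left_eq_zero).1 h6

/-- An element of `J` which is in the algebra generated by similitudes and antisymmetric elements
is zero. -/
theorem Setup.eq_zero {z : P} (hz : z ∈ J)
    (hadj : z ∈ Algebra.adjoin ℚ ({γ | ∃ N, Sim s Q γ N} ∪ {u | u ∈ Q ∧ s u = -u})) :
    z = 0 := by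
  have hs1 : s 1 = 1 := by
    have h2 := h.s_mul 1 (s 1)
    rwa [one_mul, h.s_s, one_mul, eq_comm] at h2
  by_cases hA : ∃ u ∈ Q, s u = -u ∧ u ≠ 0
  · obtain ⟨u, hu, h1, hne⟩ := hA
    have hn : u ∉ J := fun hJ => hne (h.anti_zero hJ h1)
    obtain ⟨y, hy, hy'⟩ := (h.inv hu).resolve_left hn
    have h2 : z * u = u * z := by
      clear hz
      induction hadj using Algebra.adjoin_induction with
      | mem x hx =>
        rcases hx with ⟨N, hx⟩ | ⟨hx, hx'⟩
        · exact h.sim_anti hu h1 hx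
        · exact h.anti_comm hu hx h1 hx'
      | algebraMap r => exact Algebra.commutes r u
      | add x y _ _ hx hy => rw [add_mul, mul_add, hx, hy]
      | mul x y _ _ hx hy => rw [mul_assoc, hy, ← mul_assoc, hx, mul_assoc]
    have h3 : z * u = 0 := by
      have h4 := h.sym (h.left hu hz)
      rw [h.s_mul, h.sym hz, h1, mul_neg, h2] at h4
      rw [h2]
      exact eq_zero_of_eq_neg h4.symm
    have h4 : IsUnit (u * y) := by
      have h5 : u * y = 1 + (u * y - 1) := by abel
      rw [h5]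
      exact (h.nil hy').isUnit_one_add
    have h5 : z * (u * y) = 0 := by rw [← mul_assoc, h3, zero_mul]
    exact (h4.mul_left_eq_zero).1 h5
  · push Not at hA
    have hsym : ∀ x ∈ Q, s x = x := by
      intro x hx
      refine sub_eq_zero.1 (hA (s x - x) (Q.sub_mem (h.s_mem hx) hx) ?_)
      rw [map_sub, h.s_s]
      abel
    have hcomm : ∀ x ∈ Q, ∀ y ∈ Q, x * y = y * x := by
      intro x hx y hy
      rw [← hsym _ (h.mul_mem hx hy), h.s_mul, hsym x hx, hsym y hy]
    have hspan : z ∈ Submodule.span ℚ {γ | ∃ N, Sim s Q γ N} := by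
      clear hz
      induction hadj using Algebra.adjoin_induction with
      | mem x hx =>
        rcases hx with hx | ⟨hx, hx'⟩
        · exact Submodule.subset_span hx
        · rw [hA x hx hx']
          exact Submodule.zero_mem _
      | algebraMap r =>
        rw [Algebra.algebraMap_eq_smul_one]
        refine Submodule.smul_mem _ _ (Submodule.subset_span ⟨1, h.one_mem, one_ne_zero, ?_⟩)
        rw [hs1, one_mul, map_one]
      | add x y _ _ hx hy => exact Submodule.add_mem _ hx hy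
      | mul x y _ _ hx hy =>
        have h1 := Submodule.mul_mem_mul hx hy
        rw [Submodule.span_mul_span] at h1
        refine (Submodule.span_mono ?_) h1
        rintro _ ⟨a, ⟨N, ha⟩, b, ⟨M, hb⟩, rfl⟩
        refine ⟨N * M, h.mul_mem ha.mem hb.mem, mul_ne_zero ha.ne hb.ne, ?_⟩
        rw [h.s_mul, mul_assoc, ← mul_assoc b, hb.eq, Algebra.commutes, ← mul_assoc, ha.eq,
          map_mul]
    refine roots' (𝒢 := {γ | ∃ N, Sim s Q γ N}) ?_ ?_ hspan (h.nil hz)
    · rintro a ⟨N, ha⟩ b ⟨M, hb⟩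
      exact hcomm a ha.mem b hb.mem
    · rintro a ⟨N, ha⟩
      refine ⟨N, ha.ne, ?_⟩
      have := ha.eq
      rwa [hsym a ha.mem] at this

end setup

end Pool.Agent.Y152.Alg
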